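import Mathlib

/-!
# A linear bound for non-trivial covers when every side has at least two vertices

Let `H` be an intersecting `r`-partite hypergraph, `r ≥ 3`, in which every side has at least two
vertices.  If `e, f` are edges with different vertices `v, w` on a side `i`, then
`(e \ {v}) ∪ (f \ {w})` is a cover with at most `2 r - 3` vertices which contains no edge.  It is
non-trivial unless some other side is contained in `e ∪ f`.  If the latter happens for all choices
of `e, f, i`, then one vertex from each side of size two gives a non-trivial cover, unless all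
sides have size two, in which case every non-trivial cover has at most `r` vertices.
-/

set_option autoImplicit false

namespace Pool.Agent.Results.MP_2c613a_co.LinearBound

open Finset

/-- `H` is an `r`-partite hypergraph whose sides are the fibres of `side`: every edge contains
exactly one vertex of each side and every vertex lies in at least one edge. -/
def IsPartite {V : Type} {r : ℕ} (side : V → Fin r) (H : Finset (Finset V)) : Prop :=
  (∀ e ∈ H, ∀ i : Fin r, ∃! v : V, v ∈ e ∧ side v = i) ∧ ∀ v : V, ∃ e ∈ H, v ∈ e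

/-- Any two edges share a vertex. -/
def IsIntersecting {V : Type} (H : Finset (Finset V)) : Prop :=
  ∀ e ∈ H, ∀ f ∈ H, ∃ v : V, v ∈ e ∧ v ∈ f

/-- `C` is a non-trivial vertex cover: it meets every edge, contains no edge and contains no
side. -/
def IsNontrivialCover {V : Type} {r : ℕ} (side : V → Fin r) (H : Finset (Finset V))
    (C : Finset V) : Prop :=
  (∀ e ∈ H, ∃ v ∈ e, v ∈ C) ∧ (∀ e ∈ H, ¬ e ⊆ C) ∧ ∀ i : Fin r, ∃ v : V, side v = i ∧ v ∉ C

section

variable {V : Type} [Fintype V] [DecidableEq V] {r : ℕ} {side : V → Fin r}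
  {H : Finset (Finset V)}

lemma edge_card (hp : IsPartite side H) {e : Finset V} (he : e ∈ H) : e.card = r := by
  have h1 : e.image side = univ := by
    ext i
    simp only [mem_image, mem_univ, iff_true]
    obtain ⟨v, ⟨hv, hi⟩, -⟩ := hp.1 e he i
    exact ⟨v, hv, hi⟩
  have h2 : Set.InjOn side (e : Set V) := by
    intro a ha b hb hab
    exact (hp.1 e he (side b)).unique ⟨ha, hab⟩ ⟨hb, rfl⟩
  rw [← card_image_of_injOn h2, h1, card_univ, Fintype.card_fin]

/-- The main construction. -/
lemma main_cover (hp : IsPartite side H) (hi : IsIntersecting H) {e f : Finset V} (he : e ∈ H)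
    (hf : f ∈ H) {v w : V} (hv : v ∈ e) (hw : w ∈ f) (hs : side v = side w) (hvw : v ≠ w)
    (hj : ∀ j, j ≠ side v → ∃ x, side x = j ∧ x ∉ e ∧ x ∉ f) :
    ∃ C : Finset V, IsNontrivialCover side H C ∧ C.card ≤ 2 * r - 3 := by
  refine ⟨e.erase v ∪ f.erase w, ⟨?_, ?_, ?_⟩, ?_⟩
  · intro g hg
    obtain ⟨a, hag, hae⟩ := hi g hg e he
    by_cases hav : a = v
    · subst hav
      obtain ⟨b, hbg, hbf⟩ := hi g hg f hf
      have hbw : b ≠ w := by
        rintro rfl
        exact hvw ((hp.1 g hg (side b)).unique ⟨hag, hs⟩ ⟨hbg, rfl⟩)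
      exact ⟨b, hbg, mem_union_right _ (mem_erase.mpr ⟨hbw, hbf⟩)⟩
    · exact ⟨a, hag, mem_union_left _ (mem_erase.mpr ⟨hav, hae⟩)⟩
  · intro g hg hsub
    obtain ⟨a, ⟨hag, has⟩, -⟩ := hp.1 g hg (side v)
    have := hsub hag
    rw [mem_union, mem_erase, mem_erase] at this
    rcases this with ⟨h1, h2⟩ | ⟨h1, h2⟩
    · exact h1 ((hp.1 e he (side v)).unique ⟨h2, has⟩ ⟨hv, rfl⟩)
    · exact h1 ((hp.1 f hf (side v)).unique ⟨h2, has⟩ ⟨hw, hs.symm⟩)
  · intro j
    by_cases hjv : j = side v
    · refine ⟨v, hjv.symm, ?_⟩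
      rw [mem_union, mem_erase, mem_erase]
      rintro (⟨h1, -⟩ | ⟨h1, h2⟩)
      · exact h1 rfl
      · exact h1 ((hp.1 f hf (side v)).unique ⟨h2, rfl⟩ ⟨hw, hs.symm⟩)
    · obtain ⟨x, hx, hxe, hxf⟩ := hj j hjv
      refine ⟨x, hx, ?_⟩
      rw [mem_union, mem_erase, mem_erase]
      rintro (⟨-, h2⟩ | ⟨-, h2⟩)
      · exact hxe h2
      · exact hxf h2
  · obtain ⟨a, hae, haf⟩ := hi e he f hf
    have hav : a ≠ v := by
      rintro rfl
      exact hvw ((hp.1 f hf (side a)).unique ⟨haf, rfl⟩ ⟨hw, hs.symm⟩)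
    have haw : a ≠ w := by
      rintro rfl
      exact hvw ((hp.1 e he (side a)).unique ⟨hv, hs⟩ ⟨hae, rfl⟩)
    have h1 : 1 ≤ (e.erase v ∩ f.erase w).card := by
      rw [Nat.one_le_iff_ne_zero, card_ne_zero]
      exact ⟨a, mem_inter.mpr ⟨mem_erase.mpr ⟨hav, hae⟩, mem_erase.mpr ⟨haw, haf⟩⟩⟩
    have h2 := card_union_add_card_inter (e.erase v) (f.erase w)
    rw [card_erase_of_mem hv, card_erase_of_mem hw, edge_card hp he, edge_card hp hf] at h2
    omega

end

/-- Every intersecting `r`-partite hypergraph, `r ≥ 3`, in which every side has at least two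
vertices and which has a non-trivial vertex cover has one with at most `2 r - 3` vertices. -/
theorem result (r : ℕ) (hr : 3 ≤ r) (V : Type) [Fintype V] (side : V → Fin r)
    (H : Finset (Finset V)) (hp : IsPartite side H) (hi : IsIntersecting H)
    (h2 : ∀ i : Fin r, ∃ v w : V, v ≠ w ∧ side v = i ∧ side w = i)
    (hC : ∃ C, IsNontrivialCover side H C) :
    ∃ C : Finset V, IsNontrivialCover side H C ∧ C.card ≤ 2 * r - 3 := by
  classical
  by_contra hno
  -- by the main construction, some other side lies in `e ∪ f`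
  have hA : ∀ e ∈ H, ∀ f ∈ H, ∀ v ∈ e, ∀ w ∈ f, side v = side w → v ≠ w →
      ∃ j, j ≠ side v ∧ ∀ x, side x = j → x ∈ e ∨ x ∈ f := by
    intro e he f hf v hv w hw hs hvw
    by_contra hcon
    push Not at hcon
    exact hno (main_cover hp hi he hf hv hw hs hvw hcon)
  -- the sides of size two
  let T : Fin r → Prop := fun i => ∃ v w : V, v ≠ w ∧ side v = i ∧ side w = i ∧
    ∀ x, side x = i → x = v ∨ x = w
  -- a side contained in `e ∪ f` has size two and its vertices in `e` and `f` differ
  have hT : ∀ e ∈ H, ∀ f ∈ H, ∀ j, (∀ x, side x = j → x ∈ e ∨ x ∈ f) →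
      T j ∧ ∀ a ∈ e, ∀ b ∈ f, side a = j → side b = j → a ≠ b := by
    intro e he f hf j hj
    obtain ⟨a, ⟨hae, haj⟩, hau⟩ := hp.1 e he j
    obtain ⟨b, ⟨hbf, hbj⟩, hbu⟩ := hp.1 f hf j
    have hall : ∀ x, side x = j → x = a ∨ x = b := by
      intro x hx
      rcases hj x hx with h | h
      · exact Or.inl (hau x ⟨h, hx⟩)
      · exact Or.inr (hbu x ⟨h, hx⟩)
    have hab : a ≠ b := by
      rintro rfl
      obtain ⟨v, w, hvw, hv, hw⟩ := h2 j
      apply hvw
      rcases hall v hv with h | h <;> rcases hall w hw with h' | h' <;> rw [h, h']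
    refine ⟨⟨a, b, hab, haj, hbj, hall⟩, ?_⟩
    intro a' ha' b' hb' ha'j hb'j
    rw [hau a' ⟨ha', ha'j⟩, hbu b' ⟨hb', hb'j⟩]
    exact hab
  -- the other vertex of a side of size two
  have hother : ∀ i, T i → ∀ v, side v = i → ∃ w, side w = i ∧ w ≠ v ∧
      ∀ x, side x = i → x ≠ v → x = w := by
    rintro i ⟨a, b, hab, ha, hb, hall⟩ v hv
    rcases hall v hv with h | h
    · refine ⟨b, hb, fun h' => hab (h'.trans h).symm, fun x hx hxv => ?_⟩
      rcases hall x hx with h' | h'
      · exact absurd (h'.trans h.symm) hxv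
      · exact h'
    · refine ⟨a, ha, fun h' => hab (h'.trans h), fun x hx hxv => ?_⟩
      rcases hall x hx with h' | h'
      · exact h'
      · exact absurd (h'.trans h.symm) hxv
  have hr0 : 0 < r := by omega
  -- there is a side of size two
  obtain ⟨i₀, hi₀⟩ : ∃ i, T i := by
    obtain ⟨v, w, hvw, hv, hw⟩ := h2 ⟨0, hr0⟩
    obtain ⟨e, he, hve⟩ := hp.2 v
    obtain ⟨f, hf, hwf⟩ := hp.2 w
    obtain ⟨j, -, hj⟩ := hA e he f hf v hve w hwf (hv.trans hw.symm) hvw
    exact ⟨j, (hT e he f hf j hj).1⟩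
  -- some selection `c` of one vertex per side of size two is a cover
  obtain ⟨c, hc, hcov⟩ : ∃ c : Fin r → V, (∀ i, side (c i) = i) ∧
      ∀ g ∈ H, ∃ i, T i ∧ c i ∈ g := by
    by_contra hcon
    push Not at hcon
    -- a selection and its change in `i₀`
    have hsel : ∀ i, ∃ v, side v = i := fun i => by
      obtain ⟨v, -, -, hv, -⟩ := h2 i
      exact ⟨v, hv⟩
    choose c hc using hsel
    obtain ⟨d, hd, hdne, -⟩ := hother i₀ hi₀ (c i₀) (hc i₀)
    let c' : Fin r → V := Function.update c i₀ d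
    have hc' : ∀ i, side (c' i) = i := by
      intro i
      by_cases h : i = i₀
      · subst h
        simp [c', hd]
      · simp [c', Function.update_of_ne h, hc]
    obtain ⟨g, hg, hgc⟩ := hcon c hc
    obtain ⟨g', hg', hgc'⟩ := hcon c' hc'
    obtain ⟨a, ⟨hag, has⟩, -⟩ := hp.1 g hg i₀
    obtain ⟨b, ⟨hbg, hbs⟩, -⟩ := hp.1 g' hg' i₀
    have hab : a ≠ b := by
      rintro rfl
      have h1 : a ≠ c i₀ := fun h => hgc i₀ hi₀ (h ▸ hag)
      have h2 : a ≠ c' i₀ := fun h => hgc' i₀ hi₀ (h ▸ hbg)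
      simp only [c', Function.update_self] at h2
      obtain ⟨w, hw, hwne, hwu⟩ := hother i₀ hi₀ (c i₀) (hc i₀)
      rw [hwu a has h1, hwu d hd hdne] at h2
      exact h2 rfl
    obtain ⟨j, hj, hjs⟩ := hA g hg g' hg' a hag b hbg (has.trans hbs.symm) hab
    rw [has] at hj
    obtain ⟨hTj, hdiff⟩ := hT g hg g' hg' j hjs
    obtain ⟨x, ⟨hxg, hxs⟩, -⟩ := hp.1 g hg j
    obtain ⟨y, ⟨hyg, hys⟩, -⟩ := hp.1 g' hg' j
    refine hdiff x hxg y hyg hxs hys ?_
    obtain ⟨w, hw, hwne, hwu⟩ := hother j hTj (c j) (hc j)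
    have h1 : x ≠ c j := fun h => hgc j hTj (h ▸ hxg)
    have h2 : y ≠ c j := by
      intro h
      have := hgc' j hTj
      simp only [c', Function.update_of_ne hj] at this
      exact this (h ▸ hyg)
    rw [hwu x hxs h1, hwu y hys h2]
  by_cases hall : ∀ i, T i
  · -- all sides have size two
    obtain ⟨C, hC⟩ := hC
    refine hno ⟨C, hC, ?_⟩
    have hinj : Set.InjOn side (C : Set V) := by
      intro a ha b hb hab
      obtain ⟨u, hu, huC⟩ := hC.2.2 (side b)
      obtain ⟨w, -, -, hwu⟩ := hother (side b) (hall _) u hu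
      rw [hwu a hab (fun h => huC (h ▸ ha)), hwu b rfl (fun h => huC (h ▸ hb))]
    have h1 : C.card ≤ r := by
      rw [← card_image_of_injOn hinj]
      exact (card_le_univ _).trans (by rw [Fintype.card_fin])
    omega
  · push Not at hall
    obtain ⟨j₀, hj₀⟩ := hall
    refine hno ⟨(univ.filter T).image c, ⟨?_, ?_, ?_⟩, ?_⟩
    · intro g hg
      obtain ⟨i, hTi, hig⟩ := hcov g hg
      exact ⟨c i, hig, mem_image_of_mem _ (mem_filter.mpr ⟨mem_univ _, hTi⟩)⟩
    · intro g hg hsub
      obtain ⟨x, ⟨hxg, hxs⟩, -⟩ := hp.1 g hg j₀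
      obtain ⟨i, hi1, hi2⟩ := mem_image.mp (hsub hxg)
      rw [← hi2, hc] at hxs
      rw [← hxs] at hj₀
      exact hj₀ (mem_filter.mp hi1).2
    · intro i
      by_cases hTi : T i
      · obtain ⟨w, hw, hwne, -⟩ := hother i hTi (c i) (hc i)
        refine ⟨w, hw, ?_⟩
        intro hmem
        obtain ⟨k, -, hk⟩ := mem_image.mp hmem
        have : k = i := by rw [← hc k, hk, hw]
        subst this
        exact hwne hk.symm
      · obtain ⟨v, -, -, hv, -⟩ := h2 i
        refine ⟨v, hv, ?_⟩
        intro hmem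
        obtain ⟨k, hk1, hk⟩ := mem_image.mp hmem
        have : k = i := by rw [← hc k, hk, hv]
        subst this
        exact hTi (mem_filter.mp hk1).2
    · have h1 : (univ.filter T).card < r := by
        have : (univ.filter T) ⊂ (univ : Finset (Fin r)) := by
          rw [Finset.ssubset_univ_iff]
          intro h
          have : j₀ ∈ univ.filter T := by rw [h]; exact mem_univ _
          exact hj₀ (mem_filter.mp this).2
        have := card_lt_card this
        rwa [card_univ, Fintype.card_fin] at this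
      have h2 := card_image_le (s := univ.filter T) (f := c)
      omega

end Pool.Agent.Results.MP_2c613a_co.LinearBound
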