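import Mathlib

/-!
# The least non-trivial covers of intersecting `r`-partite hypergraphs are unbounded

For `r ≥ 3` the hypergraph with a side consisting of one vertex `v` and with `M` edges which are
pairwise disjoint apart from `v` is intersecting.  Its non-trivial covers avoid `v`, so they have
at least `M` vertices, and one with exactly `M` vertices exists.
-/

set_option autoImplicit false

namespace Pool.Agent.Results.MP_2c613a_co.Unbounded

/-- `H` is an `r`-partite hypergraph whose sides are the fibres of `side`: every edge contains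
exactly one vertex of each side and every vertex lies in at least one edge. -/
def IsPartite {V : Type} {r : ℕ} (side : V → Fin r) (H : Finset (Finset V)) : Prop :=
  (∀ e ∈ H, ∀ i : Fin r, ∃! v : V, v ∈ e ∧ side v = i) ∧ ∀ v : V, ∃ e ∈ H, v ∈ e

/-- Any two edges share a vertex. -/
def IsIntersecting {V : Type} (H : Finset (Finset V)) : Prop :=
  ∀ e ∈ H, ∀ f ∈ H, ∃ v : V, v ∈ e ∧ v ∈ f

/-- `C` is a non-trivial vertex cover: it meets every edge, contains no edge and contains no
side. -/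
def IsNontrivialCover {V : Type} {r : ℕ} (side : V → Fin r) (H : Finset (Finset V))
    (C : Finset V) : Prop :=
  (∀ e ∈ H, ∃ v ∈ e, v ∈ C) ∧ (∀ e ∈ H, ¬ e ⊆ C) ∧ ∀ i : Fin r, ∃ v : V, side v = i ∧ v ∉ C

/-- The minimum size of a non-trivial vertex cover. -/
noncomputable def tauStar {V : Type} {r : ℕ} (side : V → Fin r) (H : Finset (Finset V)) : ℕ :=
  sInf {k | ∃ C : Finset V, IsNontrivialCover side H C ∧ C.card = k}

/-- The supremum of `tauStar` over all intersecting `r`-partite hypergraphs on finite vertex sets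
which have a non-trivial vertex cover. -/
noncomputable def f (r : ℕ) : ℕ∞ :=
  ⨆ (V : Type) (_ : Fintype V) (side : V → Fin r) (H : Finset (Finset V))
    (_ : IsPartite side H ∧ IsIntersecting H ∧ ∃ C, IsNontrivialCover side H C),
    (tauStar side H : ℕ∞)

/-- Vertices of the example: the pairs `(i, j)`, `i` a side and `j < M + 2`, where only `j = 0` is
used on side `0`. -/
abbrev Vx (r M : ℕ) : Type := {p : Fin (r + 3) × Fin (M + 2) // p.1 = 0 → p.2 = 0}

/-- The side of a vertex. -/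
def sd (r M : ℕ) (p : Vx r M) : Fin (r + 3) := p.1.1

/-- The `j`-th edge. -/
def ed (r M : ℕ) (j : Fin (M + 2)) : Finset (Vx r M) :=
  Finset.univ.filter (fun p => p.1.1 = 0 ∨ p.1.2 = j)

/-- The example. -/
def Hx (r M : ℕ) : Finset (Finset (Vx r M)) := Finset.univ.image (ed r M)

/-- The centre. -/
def ctr (r M : ℕ) : Vx r M := ⟨(0, 0), fun _ => rfl⟩

lemma mem_ed {r M : ℕ} {j : Fin (M + 2)} {p : Vx r M} :
    p ∈ ed r M j ↔ p.1.1 = 0 ∨ p.1.2 = j := by
  simp [ed]

lemma partite (r M : ℕ) : IsPartite (sd r M) (Hx r M) := by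
  constructor
  · intro e he i
    obtain ⟨j, -, rfl⟩ := Finset.mem_image.mp he
    by_cases hi : i = 0
    · subst hi
      refine ⟨ctr r M, ⟨by simp [mem_ed, ctr], rfl⟩, ?_⟩
      rintro ⟨⟨a, b⟩, hab⟩ ⟨-, h2⟩
      simp only [sd] at h2
      subst h2
      have := hab rfl
      simp only at this
      subst this
      rfl
    · refine ⟨⟨(i, j), fun h => absurd h hi⟩, ⟨by simp [mem_ed], rfl⟩, ?_⟩
      rintro ⟨⟨a, b⟩, hab⟩ ⟨h1, h2⟩
      simp only [sd] at h2
      subst h2
      rw [mem_ed] at h1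
      rcases h1 with h1 | h1
      · exact absurd h1 hi
      · simp only at h1
        subst h1
        rfl
  · intro v
    exact ⟨ed r M v.1.2, Finset.mem_image_of_mem _ (Finset.mem_univ _), by simp [mem_ed]⟩

lemma inter (r M : ℕ) : IsIntersecting (Hx r M) := by
  intro e he f hf
  obtain ⟨j, -, rfl⟩ := Finset.mem_image.mp he
  obtain ⟨k, -, rfl⟩ := Finset.mem_image.mp hf
  exact ⟨ctr r M, by simp [mem_ed, ctr], by simp [mem_ed, ctr]⟩

/-- A non-trivial cover. -/
def Cx (r M : ℕ) : Finset (Vx r M) :=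
  Finset.univ.filter (fun p => (p.1.1 = 1 ∧ p.1.2 ≠ 0) ∨ (p.1.1 = 2 ∧ p.1.2 = 0))

lemma mem_Cx {r M : ℕ} {p : Vx r M} :
    p ∈ Cx r M ↔ (p.1.1 = 1 ∧ p.1.2 ≠ 0) ∨ (p.1.1 = 2 ∧ p.1.2 = 0) := by
  simp [Cx]

lemma one_ne_zero' (r : ℕ) : (1 : Fin (r + 3)) ≠ 0 := by
  intro h
  have := congrArg Fin.val h
  simp at this

lemma two_ne_zero' (r : ℕ) : (2 : Fin (r + 3)) ≠ 0 := by
  intro h
  have := congrArg Fin.val h
  rw [Fin.val_two] at this
  simp at this

lemma one_ne_two' (r : ℕ) : (1 : Fin (r + 3)) ≠ 2 := by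
  intro h
  have := congrArg Fin.val h
  rw [Fin.val_two, Fin.val_one] at this
  simp at this

lemma cover (r M : ℕ) : IsNontrivialCover (sd r M) (Hx r M) (Cx r M) := by
  have h10 := one_ne_zero' r
  have h20 := two_ne_zero' r
  have h12 := one_ne_two' r
  have m10 : (1 : Fin (M + 2)) ≠ 0 := by
    intro h
    have := congrArg Fin.val h
    simp at this
  have hctr : ctr r M ∉ Cx r M := by
    rw [mem_Cx]
    rintro (⟨h, -⟩ | ⟨h, -⟩)
    · exact h10 h.symm
    · exact h20 h.symm
  refine ⟨?_, ?_, ?_⟩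
  · intro e he
    obtain ⟨j, -, rfl⟩ := Finset.mem_image.mp he
    by_cases hj : j = 0
    · subst hj
      refine ⟨⟨(2, 0), fun h => absurd h h20⟩, by simp [mem_ed], ?_⟩
      rw [mem_Cx]
      exact Or.inr ⟨rfl, rfl⟩
    · refine ⟨⟨(1, j), fun h => absurd h h10⟩, by simp [mem_ed], ?_⟩
      rw [mem_Cx]
      exact Or.inl ⟨rfl, hj⟩
  · intro e he hsub
    obtain ⟨j, -, rfl⟩ := Finset.mem_image.mp he
    exact hctr (hsub (by simp [mem_ed, ctr]))
  · intro i
    by_cases hi0 : i = 0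
    · subst hi0
      exact ⟨ctr r M, rfl, hctr⟩
    by_cases hi1 : i = 1
    · subst hi1
      refine ⟨⟨(1, 0), fun h => absurd h h10⟩, rfl, ?_⟩
      rw [mem_Cx]
      rintro (⟨-, h⟩ | ⟨h, -⟩)
      · exact h rfl
      · exact h12 h
    · refine ⟨⟨(i, 1), fun h => absurd h hi0⟩, rfl, ?_⟩
      rw [mem_Cx]
      rintro (⟨h, -⟩ | ⟨-, h⟩)
      · exact hi1 h
      · exact m10 h

lemma lower (r M : ℕ) (C : Finset (Vx r M)) (hC : IsNontrivialCover (sd r M) (Hx r M) C) :
    M + 2 ≤ C.card := by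
  obtain ⟨h1, -, h3⟩ := hC
  have hctr : ctr r M ∉ C := by
    obtain ⟨v, hv, hvC⟩ := h3 0
    have : v = ctr r M := by
      obtain ⟨⟨a, b⟩, hab⟩ := v
      simp only [sd] at hv
      subst hv
      have := hab rfl
      simp only at this
      subst this
      rfl
    rwa [this] at hvC
  have hsub : (Finset.univ : Finset (Fin (M + 2))) ⊆ C.image (fun p => p.1.2) := by
    intro j _
    obtain ⟨v, hv, hvC⟩ := h1 (ed r M j) (Finset.mem_image_of_mem _ (Finset.mem_univ _))
    rw [Finset.mem_image]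
    refine ⟨v, hvC, ?_⟩
    rw [mem_ed] at hv
    rcases hv with hv | hv
    · exfalso
      have : v = ctr r M := by
        obtain ⟨⟨a, b⟩, hab⟩ := v
        simp only at hv
        subst hv
        have := hab rfl
        simp only at this
        subst this
        rfl
      exact hctr (this ▸ hvC)
    · exact hv
  have := Finset.card_le_card hsub
  rw [Finset.card_univ, Fintype.card_fin] at this
  exact this.trans Finset.card_image_le

/-- `f(r) = ∞` for every `r ≥ 3`, and no intersecting `2`-partite hypergraph has a non-trivial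
vertex cover. -/
theorem result :
    (∀ r : ℕ, 3 ≤ r → f r = ⊤) ∧
    ∀ (V : Type) (_ : Fintype V) (side : V → Fin 2) (H : Finset (Finset V)),
      IsPartite side H → IsIntersecting H → ¬ ∃ C, IsNontrivialCover side H C := by
  constructor
  · intro r hr
    obtain ⟨r, rfl⟩ := Nat.exists_eq_add_of_le' hr
    rw [ENat.eq_top_iff_forall_ge]
    intro M
    have h1 : (tauStar (sd r M) (Hx r M) : ℕ∞) ≤ f (r + 3) := by
      unfold f
      refine le_iSup_of_le (Vx r M) (le_iSup_of_le inferInstance (le_iSup_of_le (sd r M)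
        (le_iSup_of_le (Hx r M) (le_iSup_of_le ⟨partite r M, inter r M, Cx r M, cover r M⟩
          le_rfl))))
    refine le_trans ?_ h1
    have h2 : M ≤ tauStar (sd r M) (Hx r M) := by
      unfold tauStar
      have hne : {k | ∃ C : Finset (Vx r M), IsNontrivialCover (sd r M) (Hx r M) C ∧
          C.card = k}.Nonempty := ⟨_, Cx r M, cover r M, rfl⟩
      obtain ⟨C, hC, hk⟩ := Nat.sInf_mem hne
      rw [← hk]
      have := lower r M C hC
      omega
    exact_mod_cast h2
  · rintro V _ side H ⟨hp, hv⟩ hi ⟨C, h1, h2, h3⟩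
    obtain ⟨a, ha, haC⟩ := h3 0
    obtain ⟨b, hb, hbC⟩ := h3 1
    obtain ⟨e, he, hae⟩ := hv a
    obtain ⟨g, hg, hbg⟩ := hv b
    -- the edge `e = {a, x}` and the edge `g = {y, b}`
    obtain ⟨x, ⟨hxe, hx⟩, -⟩ := hp e he 1
    obtain ⟨y, ⟨hyg, hy⟩, -⟩ := hp g hg 0
    have hsplit : ∀ v : V, side v = 0 ∨ side v = 1 := by
      intro v
      generalize side v = s
      fin_cases s <;> simp
    have hxC : x ∈ C := by
      obtain ⟨v, hve, hvC⟩ := h1 e he
      rcases hsplit v with h | h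
      · exact absurd ((hp e he 0).unique ⟨hve, h⟩ ⟨hae, ha⟩ ▸ hvC) haC
      · exact (hp e he 1).unique ⟨hve, h⟩ ⟨hxe, hx⟩ ▸ hvC
    have hyC : y ∈ C := by
      obtain ⟨v, hve, hvC⟩ := h1 g hg
      rcases hsplit v with h | h
      · exact (hp g hg 0).unique ⟨hve, h⟩ ⟨hyg, hy⟩ ▸ hvC
      · exact absurd ((hp g hg 1).unique ⟨hve, h⟩ ⟨hbg, hb⟩ ▸ hvC) hbC
    obtain ⟨v, hve, hvg⟩ := hi e he g hg
    rcases hsplit v with h | h
    · have e1 := (hp e he 0).unique ⟨hve, h⟩ ⟨hae, ha⟩
      have e2 := (hp g hg 0).unique ⟨hvg, h⟩ ⟨hyg, hy⟩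
      rw [← e1, e2] at haC
      exact haC hyC
    · have e1 := (hp e he 1).unique ⟨hve, h⟩ ⟨hxe, hx⟩
      have e2 := (hp g hg 1).unique ⟨hvg, h⟩ ⟨hbg, hb⟩
      rw [← e2, e1] at hbC
      exact hbC hxC

end Pool.Agent.Results.MP_2c613a_co.Unbounded
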